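import Mathlib
import Pool.Agent.W66.LU

set_option autoImplicit false

/-!
# Generalized Wagstaff numbers: the law for almost every sequence of final digits

Fix a base `b ≥ 2`.  For a sequence `d 0, d 1, d 2, …` of digits and a prime `p` let `W b d p` be the
`p`-rough part (the product, with multiplicity, of the prime factors larger than `p`) of the integer
`d 0 + d 1 b + … + d (p - 1) b ^ (p - 1)` with the last `p` digits of the sequence.

For the periodic sequence `1, b - 1, 0, b - 1, 0, b - 1, 0, …` (the `b`-adic expansion of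
`1 / (b + 1)`) this integer is `(b ^ p + 1) / (b + 1)` for every odd `p`, and it is its own `p`-rough
part if `p` does not divide `b + 1`.  So one infinite word contains all the numbers of the question, in
its final segments of prime length.

We prove that for almost every sequence of digits (independent and uniform) with `d 0` prime to `b` the
number of the primes `p ≤ n` with `W b d p` prime is asymptotic to `e ^ γ log n / log b`, the law
conjectured for the sequence `1, b - 1, 0, b - 1, 0, …`, in every base `b ≥ 2`.
-/

namespace Pool.Agent.Results.MP_ce8d0c_nt.DigitLaw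

open Filter Topology MeasureTheory

/-- The integer with the last `n` digits of the sequence `d`, in base `b`. -/
def low (b : ℕ) (d : ℕ → Fin b) (n : ℕ) : ℕ := ∑ i ∈ Finset.range n, (d i : ℕ) * b ^ i

/-- The product, with multiplicity, of the prime factors of `m` that are larger than `p`. -/
def roughPart (p m : ℕ) : ℕ := (m.primeFactorsList.filter (fun r => p < r)).prod

/-- The `p`-rough part of the integer with the last `p` digits of the sequence `d`. -/
def W (b : ℕ) (d : ℕ → Fin b) (p : ℕ) : ℕ := roughPart p (low b d p)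

/-- The number of primes `p ≤ n` for which `W b d p` is prime. -/
def M (b : ℕ) (d : ℕ → Fin b) (n : ℕ) : ℕ :=
  ((Finset.range (n + 1)).filter (fun p => p.Prime ∧ (W b d p).Prime)).card

/-- Independent uniformly distributed digits. -/
noncomputable def digits (b : ℕ) : Measure (ℕ → Fin b) :=
  Measure.infinitePi (fun _ : ℕ => ProbabilityTheory.uniformOn (Set.univ : Set (Fin b)))

/-- The periodic sequence `1, b - 1, 0, b - 1, 0, …`. -/
def wagstaff (b : ℕ) (hb : 2 ≤ b) (i : ℕ) : Fin b :=
  if i = 0 then ⟨1, by omega⟩ else if i % 2 = 1 then ⟨b - 1, by omega⟩ else ⟨0, by omega⟩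

lemma low_wagstaff {b : ℕ} (hb : 2 ≤ b) (m : ℕ) :
    low b (wagstaff b hb) (2 * m + 1) * (b + 1) = b ^ (2 * m + 1) + 1 := by
  induction m with
  | zero =>
    simp [low, wagstaff]
  | succ m ih =>
    have h1 : low b (wagstaff b hb) (2 * (m + 1) + 1) =
        low b (wagstaff b hb) (2 * m + 1) + (b - 1) * b ^ (2 * m + 1) := by
      unfold low
      rw [show 2 * (m + 1) + 1 = 2 * m + 1 + 1 + 1 by ring, Finset.sum_range_succ,
        Finset.sum_range_succ]
      have e1 : ((wagstaff b hb (2 * m + 1) : Fin b) : ℕ) = b - 1 := by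
        unfold wagstaff
        rw [if_neg (by omega), if_pos (by omega)]
      have e2 : ((wagstaff b hb (2 * m + 1 + 1) : Fin b) : ℕ) = 0 := by
        unfold wagstaff
        rw [if_neg (by omega), if_neg (by omega)]
      rw [e1, e2, zero_mul, add_zero]
    rw [h1, add_mul, ih]
    obtain ⟨c, rfl⟩ : ∃ c, b = c + 1 := ⟨b - 1, by omega⟩
    rw [Nat.add_sub_cancel, show 2 * (m + 1) + 1 = 2 * m + 1 + 2 by ring]
    ring

/-- The sequence which belongs to the question; the law for almost every sequence. -/
theorem result (b : ℕ) (hb : 2 ≤ b) :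
    (∀ n : ℕ, Odd n → low b (wagstaff b hb) n * (b + 1) = b ^ n + 1) ∧
    (∀ p : ℕ, p.Prime → p ≠ 2 → ¬ p ∣ b + 1 →
      W b (wagstaff b hb) p * (b + 1) = b ^ p + 1) ∧
    ∀ᵐ d ∂(digits b), (d 0 : ℕ).Coprime b →
      Tendsto (fun n : ℕ => (M b d n : ℝ) / Real.log n) atTop
        (𝓝 (Real.exp Real.eulerMascheroniConstant / Real.log b)) := by
  have hlow : ∀ n : ℕ, Odd n → low b (wagstaff b hb) n * (b + 1) = b ^ n + 1 := by
    rintro n ⟨m, rfl⟩
    exact low_wagstaff hb m
  refine ⟨hlow, ?_, ?_⟩
  · intro p hp hp2 hpd
    have h1 := hlow p (hp.odd_of_ne_two hp2)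
    have h2 : W b (wagstaff b hb) p = low b (wagstaff b hb) p :=
      Pool.Agent.W66L.rough_wagstaff hb hp hp2 hpd h1
    rw [h2, h1]
  · have : NeZero b := ⟨by omega⟩
    have h := Pool.Agent.W66L.law_all (μ := Pool.Agent.W66L.digitMeasure b) hb
      (Pool.Agent.W66L.full_digits b)
    have e : digits b = Pool.Agent.W66L.digitMeasure b := rfl
    rw [e]
    filter_upwards [h] with d hd hc
    have h1 : (Pool.Agent.W66L.dsum b 1 d).Coprime b := by
      unfold Pool.Agent.W66L.dsum
      rw [Finset.sum_range_one, pow_zero, mul_one]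
      exact hc
    have e2 : ∀ n, M b d n = Pool.Agent.W66L.cntR (fun p => Pool.Agent.W66L.dsum b p d) n := by
      intro n
      unfold M Pool.Agent.W66L.cntR
      congr 1
      ext p
      simp only [Finset.mem_filter, Finset.mem_range, Finset.mem_Icc]
      constructor
      · rintro ⟨h2, h3, h4⟩
        exact ⟨⟨h3.one_le, by omega⟩, h3, h4⟩
      · rintro ⟨⟨_, h2⟩, h3, h4⟩
        exact ⟨by omega, h3, h4⟩
    simp only [e2]
    exact hd h1

end Pool.Agent.Results.MP_ce8d0c_nt.DigitLaw
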