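import Mathlib
import Pool.Agent.Helper53.GD.Main
import Pool.Agent.T2h88.SD.Irr

set_option autoImplicit false

/-!
# Sparse factors of `b ^ n + 1`: only from algebraic factorizations

Call an integer sparse if it is a sum of boundedly many terms `c * b ^ i` with bounded coefficients
`c`.  The bases excluded in the question are those for which `b ^ n + 1` has a factorization which
comes from an identity between polynomials, and the factors are then sparse integers, exponentially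
large in `n`.  We prove the converse.

* If `b = a ^ m` with `m ≥ 3` odd or `b = 4 k ^ 4`, then for every odd `n ≥ 3` one has
  `b ^ n + 1 = x * y` with sparse `x`, `y` (at most `b` terms, coefficients at most `b ^ 2`), both at
  least `b ^ (n / b)`.
* For all other bases, every divisor `x` of `b ^ n + 1` which divides a sparse integer `z` (at most
  `k` terms, coefficients at most `H`) not divisible by `b ^ n + 1` is small:
  `|x| ≤ (k H b) ^ (N ^ (k - 1)) * b ^ (2 n / N)` for every `N` such that all prime factors of the odd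
  number `n` are larger than `N ^ (k - 1)`.  For prime exponents `p` this gives
  `log |x| ≤ C p ^ (1 - 1 / k)`.

So in the bases of the question the numbers `b ^ p + 1` have no factorization of the algebraic kind,
for any large prime `p`: no factor larger than `exp (C p ^ (1 - 1 / k))` is sparse, or divides a
sparse integer in a nontrivial way.

The proof is by Dirichlet approximation and the norm of a sparse polynomial at the roots of
`b ^ n X ^ q + 1` (`Pool.Agent.Helper53.GD.Main` in the starting library), which needs that this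
polynomial is irreducible for all `q ≤ N ^ (k - 1)`; this is exactly where the two kinds of excluded
bases come in (Capelli's criterion).
-/

namespace Pool.Agent.Results.MP_ce8d0c_nt.SparseFactors

/-- The base `b` admits an algebraic factorization: it is an odd power or four times a fourth power. -/
def Alg (b : ℕ) : Prop :=
  (∃ a m : ℕ, 2 ≤ a ∧ 3 ≤ m ∧ Odd m ∧ b = a ^ m) ∨ ∃ k : ℕ, 0 < k ∧ b = 4 * k ^ 4

/-- `z` is a sum of at most `k` terms `c i * b ^ i`, with different exponents `i` and integer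
coefficients of absolute value at most `H`. -/
def Few (b k H : ℕ) (z : ℤ) : Prop :=
  ∃ (s : Finset ℕ) (c : ℕ → ℤ), s.card ≤ k ∧ (∀ i ∈ s, |c i| ≤ H) ∧ z = ∑ i ∈ s, c i * (b : ℤ) ^ i

lemma Few.mono {b k k' H H' : ℕ} {z : ℤ} (h : Few b k H z) (hk : k ≤ k') (hH : H ≤ H') :
    Few b k' H' z := by
  obtain ⟨s, c, h1, h2, h3⟩ := h
  exact ⟨s, c, h1.trans hk, fun i hi => (h2 i hi).trans (by exact_mod_cast hH), h3⟩

lemma Few.single {b H : ℕ} {c : ℤ} (hc : |c| ≤ H) (i : ℕ) : Few b 1 H (c * (b : ℤ) ^ i) :=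
  ⟨{i}, fun _ => c, by simp, fun _ _ => hc, by simp⟩

lemma Few.add {b k k' H H' : ℕ} {z z' : ℤ} (h : Few b k H z) (h' : Few b k' H' z') :
    Few b (k + k') (H + H') (z + z') := by
  classical
  obtain ⟨s, c, h1, h2, h3⟩ := h
  obtain ⟨t, d, g1, g2, g3⟩ := h'
  refine ⟨s ∪ t, fun i => (if i ∈ s then c i else 0) + (if i ∈ t then d i else 0),
    (Finset.card_union_le _ _).trans (by omega), ?_, ?_⟩
  · intro i _
    have e1 : |if i ∈ s then c i else 0| ≤ (H : ℤ) := by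
      split_ifs with h
      · exact h2 i h
      · simp
    have e2 : |if i ∈ t then d i else 0| ≤ (H' : ℤ) := by
      split_ifs with h
      · exact g2 i h
      · simp
    push_cast
    exact (abs_add_le _ _).trans (add_le_add e1 e2)
  · have e1 : ∑ i ∈ s ∪ t, (if i ∈ s then c i else 0) * (b : ℤ) ^ i = z := by
      rw [h3, ← Finset.sum_subset Finset.subset_union_left]
      · exact Finset.sum_congr rfl fun i hi => by rw [if_pos hi]
      · intro i _ hi
        rw [if_neg hi, zero_mul]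
    have e2 : ∑ i ∈ s ∪ t, (if i ∈ t then d i else 0) * (b : ℤ) ^ i = z' := by
      rw [g3, ← Finset.sum_subset Finset.subset_union_right]
      · exact Finset.sum_congr rfl fun i hi => by rw [if_pos hi]
      · intro i _ hi
        rw [if_neg hi, zero_mul]
    rw [← e1, ← e2, ← Finset.sum_add_distrib]
    exact Finset.sum_congr rfl fun i _ => by ring

lemma Few.sum {b k H : ℕ} {f : ℕ → ℤ} (hf : ∀ i, Few b k H (f i)) (m : ℕ) :
    Few b (m * k) (m * H) (∑ i ∈ Finset.range m, f i) := by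
  induction m with
  | zero => exact ⟨∅, fun _ => 0, by simp, by simp, by simp⟩
  | succ m ih =>
    rw [Finset.sum_range_succ]
    exact (ih.add (hf m)).mono (by rw [Nat.succ_mul]) (by rw [Nat.succ_mul])

/-- powers of `a` are sparse in base `a ^ m` -/
lemma few_pow {a m : ℕ} (ha : 2 ≤ a) (hm : 1 ≤ m) (j : ℕ) (e : ℤ) (he : |e| ≤ 1) :
    Few (a ^ m) 1 (a ^ m) (e * (a : ℤ) ^ j) := by
  have h1 : e * (a : ℤ) ^ j = (e * (a : ℤ) ^ (j % m)) * ((a ^ m : ℕ) : ℤ) ^ (j / m) := by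
    push_cast
    rw [← pow_mul, mul_assoc, ← pow_add]
    congr 2
    exact (Nat.mod_add_div j m).symm
  rw [h1]
  apply Few.single
  rw [abs_mul, abs_pow, Nat.abs_cast]
  have h2 : (a : ℤ) ^ (j % m) ≤ ((a ^ m : ℕ) : ℤ) := by
    push_cast
    exact pow_le_pow_right₀ (by exact_mod_cast (by omega : 1 ≤ a)) (Nat.mod_lt j (by omega)).le
  have h3 : (0 : ℤ) ≤ (a : ℤ) ^ (j % m) := by positivity
  nlinarith [abs_nonneg e]

/-- a power bound -/
lemma pow_bound {b m n : ℕ} {x : ℤ} (hx : 1 ≤ x) (hm : m ≤ b) (h : (b : ℤ) ^ n ≤ x ^ m) :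
    (b : ℤ) ^ n ≤ x ^ b :=
  h.trans (pow_le_pow_right₀ hx hm)

/-- **Odd powers.** -/
lemma alg_one {a m n : ℕ} (ha : 2 ≤ a) (hm : 3 ≤ m) (hmo : Odd m) (hn1 : 1 ≤ n) :
    ∃ x y : ℤ, x * y = ((a ^ m : ℕ) : ℤ) ^ n + 1 ∧ Few (a ^ m) (a ^ m) ((a ^ m) ^ 2) x ∧
      Few (a ^ m) (a ^ m) ((a ^ m) ^ 2) y ∧ ((a ^ m : ℕ) : ℤ) ^ n ≤ x ^ (a ^ m) ∧
      ((a ^ m : ℕ) : ℤ) ^ n ≤ y ^ (a ^ m) := by
  have hmb : m ≤ a ^ m := (Nat.lt_two_pow_self (n := m)).le.trans (Nat.pow_le_pow_left ha m)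
  have hb2 : 2 ≤ a ^ m := by omega
  set A : ℤ := (a : ℤ) ^ n with hA
  have ha' : (2 : ℤ) ≤ a := by exact_mod_cast ha
  have hA2 : 2 ≤ A := by
    calc (2 : ℤ) ≤ a := ha'
      _ = (a : ℤ) ^ 1 := (pow_one _).symm
      _ ≤ A := pow_le_pow_right₀ (by omega) hn1
  have hbn : ((a ^ m : ℕ) : ℤ) ^ n = A ^ m := by
    rw [hA]
    push_cast
    rw [← pow_mul, ← pow_mul, mul_comm]
  -- the cofactor
  have hy : (A + 1) * ∑ i ∈ Finset.range m, (-1) ^ i * A ^ i = A ^ m + 1 := by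
    have h1 := mul_neg_geom_sum (-A) m
    have h2 : ∑ i ∈ Finset.range m, (-A) ^ i = ∑ i ∈ Finset.range m, (-1) ^ i * A ^ i :=
      Finset.sum_congr rfl fun i _ => by rw [← neg_one_mul, mul_pow]
    rw [h2, hmo.neg_pow] at h1
    linarith
  have hx1 : Few (a ^ m) (a ^ m) ((a ^ m) ^ 2) (A + 1) := by
    have h1 := few_pow ha (by omega : 1 ≤ m) n 1 (by norm_num)
    have h2 := few_pow ha (by omega : 1 ≤ m) 0 1 (by norm_num)
    have h3 := h1.add h2
    rw [one_mul, one_mul, pow_zero] at h3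
    exact h3.mono (by omega) (by nlinarith)
  have hy1 : Few (a ^ m) (a ^ m) ((a ^ m) ^ 2) (∑ i ∈ Finset.range m, (-1) ^ i * A ^ i) := by
    have h1 := Few.sum (b := a ^ m) (k := 1) (H := a ^ m) (f := fun i => (-1) ^ i * A ^ i)
      (fun i => by
        have := few_pow ha (by omega : 1 ≤ m) (n * i) ((-1) ^ i) (by simp)
        rwa [pow_mul] at this) m
    exact h1.mono (by omega) (by nlinarith)
  refine ⟨A + 1, _, by rw [hbn]; exact hy, hx1, hy1, ?_, ?_⟩
  · apply pow_bound (by omega) hmb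
    rw [hbn]
    exact pow_le_pow_left₀ (by omega) (by omega) m
  · have hyA : A ≤ ∑ i ∈ Finset.range m, (-1) ^ i * A ^ i := by
      by_contra hcon
      push Not at hcon
      have h1 : A ^ m + 1 ≤ (A + 1) * (A - 1) := by
        rw [← hy]
        apply mul_le_mul_of_nonneg_left _ (by omega)
        omega
      have h2 : A ^ 2 ≤ A ^ m := pow_le_pow_right₀ (by omega) (by omega)
      nlinarith
    apply pow_bound (by omega) hmb
    rw [hbn]
    exact pow_le_pow_left₀ (by omega) hyA m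

/-- **Four times a fourth power.** -/
lemma alg_two {k n : ℕ} (hk : 0 < k) (hn : Odd n) (hn3 : 3 ≤ n) :
    ∃ x y : ℤ, x * y = ((4 * k ^ 4 : ℕ) : ℤ) ^ n + 1 ∧ Few (4 * k ^ 4) (4 * k ^ 4) ((4 * k ^ 4) ^ 2) x ∧
      Few (4 * k ^ 4) (4 * k ^ 4) ((4 * k ^ 4) ^ 2) y ∧ ((4 * k ^ 4 : ℕ) : ℤ) ^ n ≤ x ^ (4 * k ^ 4) ∧
      ((4 * k ^ 4 : ℕ) : ℤ) ^ n ≤ y ^ (4 * k ^ 4) := by
  have hk' : (1 : ℤ) ≤ k := by exact_mod_cast hk
  have hk4 : 1 ≤ k ^ 4 := Nat.one_le_pow _ _ hk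
  have hb4 : 4 ≤ 4 * k ^ 4 := by omega
  obtain ⟨t, ht⟩ := hn
  set b : ℕ := 4 * k ^ 4 with hb
  -- `c = 2 ^ t k ^ n`
  set c : ℤ := 2 ^ t * (k : ℤ) ^ n with hc
  have hc1 : 1 ≤ c := by
    have h1 : (1 : ℤ) ≤ 2 ^ t := one_le_pow₀ (by norm_num)
    have h2 : (1 : ℤ) ≤ (k : ℤ) ^ n := one_le_pow₀ hk'
    nlinarith
  have hbn : (b : ℤ) ^ n = 4 * c ^ 4 := by
    rw [hb, hc]
    push_cast
    rw [mul_pow, mul_pow, ← pow_mul, ← pow_mul, ← pow_mul, ht]
    have e1 : (4 : ℤ) ^ (2 * t + 1) = 4 * 2 ^ (t * 4) := by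
      rw [pow_succ, show (4 : ℤ) = 2 ^ 2 by norm_num, ← pow_mul]
      ring
    rw [e1]
    ring
  -- `2 c ^ 2 = (2 k ^ 2) b ^ t`
  have h2c2 : 2 * c ^ 2 = (2 * (k : ℤ) ^ 2) * (b : ℤ) ^ t := by
    rw [hb, hc]
    push_cast
    rw [mul_pow, mul_pow, ← pow_mul, ← pow_mul, ← pow_mul, ht]
    have e1 : (4 : ℤ) ^ t = 2 ^ (t * 2) := by
      rw [show (4 : ℤ) = 2 ^ 2 by norm_num, ← pow_mul]
      ring
    rw [e1]
    ring
  have hf2 : Few b 1 b (2 * c ^ 2) := by
    rw [h2c2]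
    apply Few.single
    rw [abs_of_nonneg (by positivity), hb]
    push_cast
    nlinarith [sq_nonneg ((k : ℤ) ^ 2 - 1), sq_nonneg (k : ℤ)]
  -- `2 c = d b ^ s`
  have hf1 : ∀ e : ℤ, |e| ≤ 1 → Few b 1 b (e * (2 * c)) := by
    intro e he
    obtain ⟨s, hs⟩ : ∃ s, t = 2 * s ∨ t = 2 * s + 1 := ⟨t / 2, by omega⟩
    have hd : ∃ d : ℤ, 0 ≤ d ∧ d ≤ b ∧ 2 * c = d * (b : ℤ) ^ s := by
      rcases hs with hs | hs
      · refine ⟨2 * k, by positivity, ?_, ?_⟩
        · rw [hb]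
          push_cast
          nlinarith [pow_le_pow_right₀ hk' (show 1 ≤ 4 by norm_num)]
        · rw [hb, hc]
          push_cast
          rw [mul_pow, ← pow_mul, ht, hs]
          have e1 : (4 : ℤ) ^ s = 2 ^ (2 * s) := by
            rw [show (4 : ℤ) = 2 ^ 2 by norm_num, ← pow_mul]
          rw [e1]
          ring
      · refine ⟨4 * k ^ 3, by positivity, ?_, ?_⟩
        · rw [hb]
          push_cast
          nlinarith [pow_le_pow_right₀ hk' (show 3 ≤ 4 by norm_num)]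
        · rw [hb, hc]
          push_cast
          rw [mul_pow, ← pow_mul, ht, hs]
          have e1 : (4 : ℤ) ^ s = 2 ^ (2 * s) := by
            rw [show (4 : ℤ) = 2 ^ 2 by norm_num, ← pow_mul]
          rw [e1]
          ring
    obtain ⟨d, hd0, hd1, hd2⟩ := hd
    rw [hd2, ← mul_assoc]
    apply Few.single
    rw [abs_mul, abs_of_nonneg hd0]
    nlinarith [abs_nonneg e]
  have hf0 : Few b 1 b 1 := by
    have := Few.single (b := b) (H := b) (c := 1) (by
      rw [abs_one]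
      exact_mod_cast (by omega : 1 ≤ b)) 0
    simpa using this
  have hx : ∀ e : ℤ, |e| ≤ 1 → Few b b (b ^ 2) (2 * c ^ 2 + e * (2 * c) + 1) := by
    intro e he
    exact ((hf2.add (hf1 e he)).add hf0).mono (by omega) (by nlinarith)
  have hbound : ∀ x : ℤ, c ^ 2 ≤ x → (b : ℤ) ^ n ≤ x ^ b := by
    intro x hx
    have hx1 : 1 ≤ x := by nlinarith
    apply pow_bound hx1 hb4
    -- `b ^ n = 4 c ^ 4 ≤ c ^ 8`
    rw [hbn]
    have hct : 2 ≤ c ^ 2 := by
      have h1 : (2 : ℤ) ≤ c := by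
        have h1 : (2 : ℤ) ^ 1 ≤ 2 ^ t := pow_le_pow_right₀ (by norm_num) (by omega)
        have h2 : (1 : ℤ) ≤ (k : ℤ) ^ n := one_le_pow₀ hk'
        rw [hc]
        nlinarith
      nlinarith
    calc 4 * c ^ 4 = 4 * (c ^ 2) ^ 2 := by ring
      _ ≤ (c ^ 2) ^ 2 * (c ^ 2) ^ 2 := by
          apply mul_le_mul_of_nonneg_right _ (by positivity)
          nlinarith
      _ = (c ^ 2) ^ 4 := by ring
      _ ≤ x ^ 4 := pow_le_pow_left₀ (by positivity) hx 4
  refine ⟨2 * c ^ 2 + 1 * (2 * c) + 1, 2 * c ^ 2 + (-1) * (2 * c) + 1, ?_, hx 1 (by norm_num),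
    hx (-1) (by norm_num), hbound _ (by nlinarith), hbound _ (by nlinarith [sq_nonneg (c - 1)])⟩
  rw [hbn]
  ring

/-- **All other bases.** -/
lemma nonalg {b : ℕ} (hb : 2 ≤ b) (h : ¬ Alg b) {k H N n : ℕ} (hN : 1 ≤ N) (hn : Odd n)
    (hfac : ∀ q : ℕ, q.Prime → q ∣ n → N ^ (k - 1) < q) {x z : ℤ} (hx : x ∣ (b : ℤ) ^ n + 1)
    (hxz : x ∣ z) (hz : Few b k H z) (hnz : ¬ (b : ℤ) ^ n + 1 ∣ z) :
    |x| ≤ ((k * H * b : ℕ) : ℤ) ^ (N ^ (k - 1)) * (b : ℤ) ^ (2 * n / N) := by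
  have hn1 : 1 ≤ n := hn.pos
  have hε : (b : ℤ) ^ n + 1 = (b : ℤ) ^ n - (-1) := by ring
  have hirr : ∀ q : ℕ, 1 ≤ q → q ≤ N ^ (k - 1) →
      Irreducible (Polynomial.X ^ q -
        Polynomial.C (((-1 : ℤ) : ℚ) / (b : ℚ) ^ n) : Polynomial ℚ) := by
    intro q hq1 hq2
    refine Pool.Agent.T2h88.SD.irr_main hb ?_ ?_ hn hq1 ?_
    · intro p hp hp2 c hc
      apply h
      left
      refine ⟨c, p, ?_, ?_, hp.odd_of_ne_two hp2, hc.symm⟩
      · by_contra hcon
        have hc1 : c ≤ 1 := by omega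
        have : c ^ p ≤ 1 := pow_le_one' hc1 p
        omega
      · have := hp.two_le
        omega
    · intro k' hk'
      apply h
      right
      refine ⟨k', ?_, hk'⟩
      rcases Nat.eq_zero_or_pos k' with h0 | h0
      · rw [h0] at hk'
        simp at hk'
        omega
      · exact h0
    · intro p hp hpq hpn
      have h1 := hfac p hp hpn
      have h2 := Nat.le_of_dvd hq1 hpq
      omega
  rcases Pool.Agent.Helper53.GD.main (n := n) (k := k) (H := H) (N := N) hb hn1 hN (Or.inr rfl)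
    hirr (z := z) (x := x) hz (by rw [← hε]; exact hx) hxz with h1 | h1
  · exact absurd (by rw [hε]; exact h1) hnz
  · exact h1

/-- prime exponents -/
lemma nonalg_prime {b : ℕ} (hb : 2 ≤ b) (h : ¬ Alg b) {k : ℕ} (hk : 1 ≤ k) (H : ℕ) {p : ℕ}
    (hp : p.Prime) (hp2 : p ≠ 2) {x z : ℤ} (hx : x ∣ (b : ℤ) ^ p + 1) (hxz : x ∣ z)
    (hz : Few b k H z) (hnz : ¬ (b : ℤ) ^ p + 1 ∣ z) :
    (|x| : ℝ) ≤ Real.exp ((Real.log (k * H * b + 1) + 4 * Real.log b) *
      (p : ℝ) ^ (1 - 1 / (k : ℝ))) := by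
  have hp1 : (1 : ℝ) < p := by exact_mod_cast hp.one_lt
  have hp0 : (0 : ℝ) < p := by linarith
  have hkr : (1 : ℝ) ≤ k := by exact_mod_cast hk
  have hk0 : (0 : ℝ) < k := by linarith
  set P : ℝ := (p : ℝ) ^ (1 / (k : ℝ)) with hP
  have hP1 : 1 ≤ P := Real.one_le_rpow hp1.le (by positivity)
  have hP0 : 0 < P := by linarith
  set N : ℕ := ⌊P⌋₊ with hNdef
  have hN1 : 1 ≤ N := by
    rw [hNdef, Nat.one_le_floor_iff]
    exact hP1
  have hNr : (1 : ℝ) ≤ N := by exact_mod_cast hN1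
  have hNP : (N : ℝ) ≤ P := Nat.floor_le hP0.le
  have hPN : P ≤ 2 * N := by
    have := Nat.lt_floor_add_one P
    rw [← hNdef] at this
    linarith
  set E : ℝ := (p : ℝ) ^ (1 - 1 / (k : ℝ)) with hE
  have hE0 : 0 < E := Real.rpow_pos_of_pos hp0 _
  have hEP : E * P = p := by
    rw [hE, hP, ← Real.rpow_add hp0]
    norm_num
  have hPk : P ^ (k - 1) = E := by
    rw [hP, hE, ← Real.rpow_natCast, ← Real.rpow_mul hp0.le]
    congr 1
    rw [Nat.cast_sub hk]
    field_simp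
    push_cast
    ring
  have hNk : ((N ^ (k - 1) : ℕ) : ℝ) ≤ E := by
    push_cast
    rw [← hPk]
    exact pow_le_pow_left₀ (by positivity) hNP _
  have hEp : E < p := by
    rw [hE]
    calc (p : ℝ) ^ (1 - 1 / (k : ℝ)) < (p : ℝ) ^ (1 : ℝ) := by
          apply Real.rpow_lt_rpow_of_exponent_lt hp1
          have : 0 < 1 / (k : ℝ) := by positivity
          linarith
      _ = p := Real.rpow_one _
  have hfac : ∀ q : ℕ, q.Prime → q ∣ p → N ^ (k - 1) < q := by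
    intro q hq hqp
    rw [(Nat.prime_dvd_prime_iff_eq hq hp).1 hqp]
    exact_mod_cast hNk.trans_lt hEp
  have h1 := nonalg hb h hN1 (hp.odd_of_ne_two hp2) hfac hx hxz hz hnz
  have h2 : (|x| : ℝ) ≤ ((k : ℝ) * H * b) ^ (N ^ (k - 1)) * (b : ℝ) ^ (2 * p / N) := by
    have : ((|x| : ℤ) : ℝ) ≤ ((((k * H * b : ℕ) : ℤ) ^ (N ^ (k - 1)) * (b : ℤ) ^ (2 * p / N) : ℤ) : ℝ) := by
      exact_mod_cast h1
    push_cast at this
    exact this
  have hb1 : (1 : ℝ) ≤ b := by exact_mod_cast (by omega : 1 ≤ b)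
  have hlogb : 0 ≤ Real.log b := Real.log_nonneg hb1
  have hD1 : (1 : ℝ) ≤ (k : ℝ) * H * b + 1 := by
    have : (0 : ℝ) ≤ (k : ℝ) * H * b := by positivity
    linarith
  have hlogD : 0 ≤ Real.log ((k : ℝ) * H * b + 1) := Real.log_nonneg hD1
  have h3 : ((k : ℝ) * H * b) ^ (N ^ (k - 1)) ≤
      Real.exp (Real.log ((k : ℝ) * H * b + 1) * E) := by
    calc ((k : ℝ) * H * b) ^ (N ^ (k - 1)) ≤ ((k : ℝ) * H * b + 1) ^ (N ^ (k - 1)) :=
          pow_le_pow_left₀ (by positivity) (by linarith) _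
      _ = Real.exp (Real.log ((k : ℝ) * H * b + 1) * ((N ^ (k - 1) : ℕ) : ℝ)) := by
          rw [mul_comm (Real.log _), Real.exp_nat_mul, Real.exp_log (by linarith)]
      _ ≤ _ := Real.exp_le_exp.2 (mul_le_mul_of_nonneg_left hNk hlogD)
  have h4 : (b : ℝ) ^ (2 * p / N) ≤ Real.exp (4 * Real.log b * E) := by
    have h5 : ((2 * p / N : ℕ) : ℝ) ≤ 4 * E := by
      calc ((2 * p / N : ℕ) : ℝ) ≤ ((2 * p : ℕ) : ℝ) / N := Nat.cast_div_le
        _ ≤ 4 * E := by
          rw [div_le_iff₀ (by linarith)]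
          push_cast
          rw [← hEP]
          nlinarith
    calc (b : ℝ) ^ (2 * p / N) = Real.exp (Real.log b * ((2 * p / N : ℕ) : ℝ)) := by
          rw [mul_comm (Real.log _), Real.exp_nat_mul, Real.exp_log (by linarith)]
      _ ≤ _ := by
          apply Real.exp_le_exp.2
          calc Real.log b * ((2 * p / N : ℕ) : ℝ) ≤ Real.log b * (4 * E) :=
                mul_le_mul_of_nonneg_left h5 hlogb
            _ = _ := by ring
  calc (|x| : ℝ) ≤ ((k : ℝ) * H * b) ^ (N ^ (k - 1)) * (b : ℝ) ^ (2 * p / N) := h2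
    _ ≤ Real.exp (Real.log ((k : ℝ) * H * b + 1) * E) * Real.exp (4 * Real.log b * E) :=
        mul_le_mul h3 h4 (by positivity) (by positivity)
    _ = _ := by
        rw [← Real.exp_add]
        congr 1
        ring

/-- Sparse factors of `b ^ n + 1` exist exactly in the bases with an algebraic factorization. -/
theorem result (b : ℕ) (hb : 2 ≤ b) :
    (Alg b → ∀ n : ℕ, Odd n → 3 ≤ n → ∃ x y : ℤ, x * y = (b : ℤ) ^ n + 1 ∧
      Few b b (b ^ 2) x ∧ Few b b (b ^ 2) y ∧ (b : ℤ) ^ n ≤ x ^ b ∧ (b : ℤ) ^ n ≤ y ^ b) ∧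
    (¬ Alg b → ∀ k H : ℕ,
      (∀ n N : ℕ, Odd n → 1 ≤ N → (∀ q : ℕ, q.Prime → q ∣ n → N ^ (k - 1) < q) →
        ∀ x z : ℤ, x ∣ (b : ℤ) ^ n + 1 → x ∣ z → Few b k H z → ¬ (b : ℤ) ^ n + 1 ∣ z →
          |x| ≤ ((k * H * b : ℕ) : ℤ) ^ (N ^ (k - 1)) * (b : ℤ) ^ (2 * n / N)) ∧
      (1 ≤ k → ∀ p : ℕ, p.Prime → p ≠ 2 →
        ∀ x z : ℤ, x ∣ (b : ℤ) ^ p + 1 → x ∣ z → Few b k H z → ¬ (b : ℤ) ^ p + 1 ∣ z →
          (|x| : ℝ) ≤ Real.exp ((Real.log (k * H * b + 1) + 4 * Real.log b) *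
            (p : ℝ) ^ (1 - 1 / (k : ℝ))))) := by
  refine ⟨?_, fun h k H => ⟨?_, ?_⟩⟩
  · rintro (⟨a, m, ha, hm, hmo, rfl⟩ | ⟨k, hk, rfl⟩) n hn hn3
    · exact alg_one ha hm hmo (by omega)
    · exact alg_two hk hn hn3
  · intro n N hn hN hfac x z hx hxz hz hnz
    exact nonalg hb h hN hn hfac hx hxz hz hnz
  · intro hk p hp hp2 x z hx hxz hz hnz
    exact nonalg_prime hb h hk H hp hp2 hx hxz hz hnz

end Pool.Agent.Results.MP_ce8d0c_nt.SparseFactors
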