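import Mathlib
import Pool.Agent.N176.SH.All
import Pool.Agent.N372.SH.OKP

set_option autoImplicit false

/-!
# Generalized Wagstaff numbers: windows of any length, in all bases at once

For an integer `b ≥ 2`, a real `β > 0` and an odd prime `p` let `W b β p` be the `p`-rough part (the
product, with multiplicity, of the prime factors larger than `p`) of `⌈β b ^ p⌉`.  For
`β = 1 / (b + 1)` and `p` not dividing `b + 1` this is the number `(b ^ p + 1) / (b + 1)` of the
question, and the question asks whether the number of the `p ≤ n` with `W b β p` prime tends to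
infinity at these points.

According to the Poisson model behind the conjecture the exponents `p` with `W b β p` prime form, on
the scale `log p`, a Poisson process of intensity `κ b = e ^ γ / log b`.  For such a process the number
of points in `(log n, log n']` differs from its mean `κ b * log (n' / n)` by
`O (sqrt (log (n' / n) log log n') + log log n')`, for all windows at once, and for the windows
starting at the origin by `O (sqrt (log n log log log n))` (law of the iterated logarithm).  We prove
these bounds for almost every `β > 0`, in all bases `b ≥ 2` at once, for all windows `(n, n']` at once,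
of whatever length, and for the whole counting function; and the same for the exponents in an
arbitrary set `S` of primes of infinite weight `∑ log p / p`.

The analytic part (`Pool.Agent.N176.SH.pairs_univ`, `pairs_set`) is from the starting library; it was
used there for the pairs `(a, b)` with `|b| ≥ 2`.
-/

namespace Pool.Agent.Results.MP_ce8d0c_nt.WindowsEveryBase

open Filter Topology MeasureTheory

/-- The product, with multiplicity, of the prime factors of `m` that are larger than `p`. -/
def roughPart (p m : ℕ) : ℕ := (m.primeFactorsList.filter (fun r => p < r)).prod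

/-- The `p`-rough part of `⌈β b ^ p⌉`. -/
noncomputable def W (b : ℕ) (β : ℝ) (p : ℕ) : ℕ := roughPart p ⌈β * (b : ℝ) ^ p⌉₊

open Classical in
/-- The number of odd primes `p ≤ n` in the set `S` for which `W b β p` is prime. -/
noncomputable def M (b : ℕ) (S : Set ℕ) (β : ℝ) (n : ℕ) : ℕ :=
  ((Finset.range (n + 1)).filter (fun p => p.Prime ∧ p ≠ 2 ∧ p ∈ S ∧ (W b β p).Prime)).card

open Classical in
/-- The sum of `log p / p` over the primes `p ≤ n` in the set `S`. -/
noncomputable def V (S : Set ℕ) (n : ℕ) : ℝ :=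
  ∑ p ∈ (Finset.range (n + 1)).filter (fun p => p.Prime ∧ p ∈ S), Real.log p / p

/-- The constant of the law, `e ^ γ / log b`. -/
noncomputable def κ (b : ℕ) : ℝ := Real.exp Real.eulerMascheroniConstant / Real.log b

open Pool.Agent.N176.SH (WW MW)

/-- for odd `p` the number `W b β p` is the one of the pair `(b, -1)` -/
lemma W_eq {b : ℕ} (hb : 2 ≤ b) {β : ℝ} (hβ : 0 < β) {p : ℕ} (hp : Odd p) :
    WW b (-1) β p = W b β p := by
  unfold WW W
  have hb0 : (0 : ℝ) < (b : ℝ) + 1 := by positivity
  have h1 : ((-1 : ℤ) : ℝ) ^ p / ((b : ℝ) - ((-1 : ℤ) : ℝ)) = -(1 / ((b : ℝ) + 1)) := by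
    push_cast
    rw [hp.neg_one_pow, sub_neg_eq_add, neg_div]
  have h2 : ⌈((-1 : ℤ) : ℝ) ^ p / ((b : ℝ) - ((-1 : ℤ) : ℝ))⌉ = 0 := by
    rw [h1, Int.ceil_eq_iff]
    have hb2 : (2 : ℝ) ≤ b := by exact_mod_cast hb
    have h3 : 1 / ((b : ℝ) + 1) < 1 := by
      rw [div_lt_one hb0]
      linarith
    have h4 : 0 < 1 / ((b : ℝ) + 1) := by positivity
    constructor
    · push_cast; linarith
    · push_cast; linarith
  rw [h2, sub_zero]
  rfl

/-- the special points -/
lemma special {b : ℕ} (hb : 2 ≤ b) {p : ℕ} (hp : p.Prime) (hp2 : p ≠ 2) (hpd : ¬ p ∣ b + 1) :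
    W b (1 / ((b : ℝ) + 1)) p * (b + 1) = b ^ p + 1 := by
  have hodd : Odd p := hp.odd_of_ne_two hp2
  have h := Pool.Agent.N176.SH.spe (a := b) (b := -1) (by
      rw [abs_neg, abs_one]
      exact_mod_cast (by omega : 1 < b)) (IsCoprime.neg_right isCoprime_one_right) hp (by
      intro h
      apply hpd
      have : ((p : ℕ) : ℤ) ∣ ((b + 1 : ℕ) : ℤ) := by push_cast; simpa using h
      exact_mod_cast this)
  have e : (1 : ℝ) / ((b : ℝ) - ((-1 : ℤ) : ℝ)) = 1 / ((b : ℝ) + 1) := by
    push_cast
    rw [sub_neg_eq_add]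
  rw [e, W_eq hb (by positivity) hodd, hodd.neg_one_pow] at h
  have h2 : ((W b (1 / ((b : ℝ) + 1)) p * (b + 1) : ℕ) : ℤ) = ((b ^ p + 1 : ℕ) : ℤ) := by
    push_cast
    linarith
  exact_mod_cast h2

/-- The two counting functions differ by at most one, which does not depend on `n ≥ 2`. -/
lemma M_diff {b : ℕ} (hb : 2 ≤ b) {β : ℝ} (hβ : 0 < β) (S : Set ℕ) :
    ∃ e : ℝ, |e| ≤ 1 ∧ ∀ n ≥ 2, (M b S β n : ℝ) = MW b (-1) S β n + e := by
  classical
  set f : ℕ → ℝ := fun p => if p.Prime ∧ p ≠ 2 ∧ p ∈ S ∧ (W b β p).Prime then 1 else 0 with hf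
  set g : ℕ → ℝ := fun p => if p.Prime ∧ p ∈ S ∧ (WW b (-1) β p).Prime then 1 else 0 with hg
  refine ⟨f 2 - g 2, ?_, fun n hn => ?_⟩
  · simp only [hf, hg]
    split_ifs <;> norm_num
  · have h1 : (M b S β n : ℝ) = ∑ p ∈ Finset.range (n + 1), f p := by
      unfold M
      rw [Finset.card_filter]
      push_cast
      rfl
    have h2 : (MW b (-1) S β n : ℝ) = ∑ p ∈ Finset.range (n + 1), g p := by
      unfold MW
      rw [Finset.card_filter]
      push_cast
      rfl
    have h3 : ∑ p ∈ Finset.range (n + 1), (f p - g p) = f 2 - g 2 := by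
      refine Finset.sum_eq_single_of_mem 2 (Finset.mem_range.2 (by omega)) fun p _ hp2 => ?_
      simp only [hf, hg]
      by_cases hp : p.Prime
      · rw [W_eq hb hβ (hp.odd_of_ne_two hp2)]
        simp [hp, hp2]
      · rw [if_neg fun h => hp h.1, if_neg fun h => hp h.1, sub_self]
    rw [Finset.sum_sub_distrib] at h3
    rw [h1, h2]
    linarith

/-- The special values; the connection with the question; the window law and the law of the
iterated logarithm for all bases at once; the same for the exponents in an arbitrary set of primes of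
infinite weight. -/
theorem result :
    (∀ b : ℕ, 2 ≤ b → ∀ p : ℕ, p.Prime → p ≠ 2 → ¬ p ∣ b + 1 →
      W b (1 / ((b : ℝ) + 1)) p * (b + 1) = b ^ p + 1) ∧
    (∃ C : ℕ → ℝ, ∀ᵐ β : ℝ, 0 < β → ∀ b : ℕ, 2 ≤ b →
      (∀ᶠ n : ℕ in atTop, ∀ n' ≥ n,
        |((M b Set.univ β n' : ℝ) - M b Set.univ β n) - κ b * Real.log ((n' : ℝ) / n)| ≤
          C b * (√(Real.log ((n' : ℝ) / n) * Real.log (Real.log n')) + Real.log (Real.log n'))) ∧
      (∀ᶠ n : ℕ in atTop, |(M b Set.univ β n : ℝ) - κ b * Real.log n| ≤
        C b * √(Real.log n * Real.log (Real.log (Real.log n))))) ∧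
    (∃ C : ℕ → ℝ, ∀ S : Set ℕ, Tendsto (fun n => V S n) atTop atTop →
      ∀ᵐ β : ℝ, 0 < β → ∀ b : ℕ, 2 ≤ b →
      (∀ᶠ n : ℕ in atTop, ∀ n' ≥ n,
        |((M b S β n' : ℝ) - M b S β n) - κ b * (V S n' - V S n)| ≤
          C b * (√((V S n' - V S n) * Real.log (V S n')) + Real.log (V S n'))) ∧
      (∀ᶠ n : ℕ in atTop, |(M b S β n : ℝ) - κ b * V S n| ≤
        C b * √(V S n * Real.log (Real.log (V S n))))) := by
  have eV : ∀ S n, Pool.Agent.N176.OW.VS S n = V S n := fun S n => rfl
  have ek : ∀ a, Pool.Agent.N176.OW.kap a = κ a := fun a => rfl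
  have hc1 : (1 : ℤ) ≤ |(-1 : ℤ)| := by norm_num
  have hc2 : ∀ b : ℕ, 2 ≤ b → |(-1 : ℤ)| < b := fun b hb => by
    rw [abs_neg, abs_one]
    exact_mod_cast (by omega : 1 < b)
  refine ⟨fun b hb p hp hp2 hpd => special hb hp hp2 hpd, ?_, ?_⟩
  · obtain ⟨C, hC⟩ := Pool.Agent.N176.SH.pairs_univ Pool.Agent.N176.SH.All.win'
      Pool.Agent.N176.SH.All.lil' Pool.Agent.N372.SH.okp
    refine ⟨fun b => |C b (-1)| + 1, ?_⟩
    filter_upwards [hC] with β h hβ b hb
    obtain ⟨h1, h2⟩ := h hβ b (-1) hc1 (hc2 b hb)
    simp only [ek] at h1 h2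
    obtain ⟨e, he1, he⟩ := M_diff hb hβ Set.univ
    constructor
    · filter_upwards [h1, eventually_ge_atTop 16] with n hn hn16 n' hnn'
      have hn2 : 2 ≤ n := by omega
      rw [he n hn2, he n' (hn2.trans hnn'), add_sub_add_right_eq_sub]
      refine (hn n' hnn').trans (mul_le_mul_of_nonneg_right ?_ ?_)
      · have := le_abs_self (C b (-1))
        linarith
      · have := Pool.Agent.N176.SH.loglog_nonneg hn16 hnn'
        positivity
    · have hl1 : Tendsto (fun n : ℕ => Real.log (n : ℝ)) atTop atTop :=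
        Real.tendsto_log_atTop.comp tendsto_natCast_atTop_atTop
      have hl2 : Tendsto (fun n : ℕ => Real.log (Real.log (n : ℝ))) atTop atTop :=
        Real.tendsto_log_atTop.comp hl1
      have hl3 : Tendsto (fun n : ℕ => Real.log (Real.log (Real.log (n : ℝ)))) atTop atTop :=
        Real.tendsto_log_atTop.comp hl2
      filter_upwards [h2, eventually_ge_atTop 2, hl1.eventually_ge_atTop 1,
        hl3.eventually_ge_atTop 1] with n hn hn2 hn3 hn4
      rw [he n hn2]
      have h3 : 1 ≤ √(Real.log n * Real.log (Real.log (Real.log n))) := by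
        rw [Real.one_le_sqrt]
        nlinarith
      have h4 : |(MW b (-1) Set.univ β n : ℝ) + e - κ b * Real.log n| ≤
          |(MW b (-1) Set.univ β n : ℝ) - κ b * Real.log n| + |e| := by
        have : (MW b (-1) Set.univ β n : ℝ) + e - κ b * Real.log n =
          ((MW b (-1) Set.univ β n : ℝ) - κ b * Real.log n) + e := by ring
        rw [this]
        exact abs_add_le _ _
      have h5 : C b (-1) * √(Real.log n * Real.log (Real.log (Real.log n))) ≤
          |C b (-1)| * √(Real.log n * Real.log (Real.log (Real.log n))) :=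
        mul_le_mul_of_nonneg_right (le_abs_self _) (Real.sqrt_nonneg _)
      linarith
  · obtain ⟨C, hC⟩ := Pool.Agent.N176.SH.pairs_set Pool.Agent.N176.SH.All.win'
      Pool.Agent.N176.SH.All.lil' Pool.Agent.N372.SH.okp
    refine ⟨fun b => |C b (-1)| + 1, fun S hS => ?_⟩
    filter_upwards [hC S hS] with β h hβ b hb
    obtain ⟨h1, h2⟩ := h hβ b (-1) hc1 (hc2 b hb)
    simp only [ek, eV] at h1 h2
    obtain ⟨e, he1, he⟩ := M_diff hb hβ S
    constructor
    · filter_upwards [h1, eventually_ge_atTop 2, hS.eventually_ge_atTop 1] with n hn hn2 hn1 n' hnn'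
      rw [he n hn2, he n' (hn2.trans hnn'), add_sub_add_right_eq_sub]
      refine (hn n' hnn').trans (mul_le_mul_of_nonneg_right ?_ ?_)
      · have := le_abs_self (C b (-1))
        linarith
      · have h3 : V S n ≤ V S n' := Pool.Agent.N176.OW.VS_mono S hnn'
        have := Real.log_nonneg (hn1.trans h3)
        positivity
    · have hl2 : Tendsto (fun n : ℕ => Real.log (V S n)) atTop atTop :=
        Real.tendsto_log_atTop.comp hS
      have hl3 : Tendsto (fun n : ℕ => Real.log (Real.log (V S n))) atTop atTop :=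
        Real.tendsto_log_atTop.comp hl2
      filter_upwards [h2, eventually_ge_atTop 2, hS.eventually_ge_atTop 1,
        hl3.eventually_ge_atTop 1] with n hn hn2 hn3 hn4
      rw [he n hn2]
      have h3 : 1 ≤ √(V S n * Real.log (Real.log (V S n))) := by
        rw [Real.one_le_sqrt]
        nlinarith
      have h4 : |(MW b (-1) S β n : ℝ) + e - κ b * V S n| ≤
          |(MW b (-1) S β n : ℝ) - κ b * V S n| + |e| := by
        have : (MW b (-1) S β n : ℝ) + e - κ b * V S n =
          ((MW b (-1) S β n : ℝ) - κ b * V S n) + e := by ring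
        rw [this]
        exact abs_add_le _ _
      have h5 : C b (-1) * √(V S n * Real.log (Real.log (V S n))) ≤
          |C b (-1)| * √(V S n * Real.log (Real.log (V S n))) :=
        mul_le_mul_of_nonneg_right (le_abs_self _) (Real.sqrt_nonneg _)
      linarith

end Pool.Agent.Results.MP_ce8d0c_nt.WindowsEveryBase
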